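import Pool.Agent.QUD.StmtsV

/-!
Row SQL of squad QUD: Lipschitz bounds for the integrands.
-/

set_option autoImplicit false

namespace Pool.Agent.QUD.H51

open MeasureTheory Filter Topology Real Set

private theorem s_bds (t : ℝ) : 0 ≤ sin t ^ 2 ∧ sin t ^ 2 ≤ 1 :=
  ⟨sq_nonneg _, Real.sin_sq_le_one t⟩

private theorem den_bd {z0 z s : ℝ} (hz : z ∈ Icc 0 z0) (hs0 : 0 ≤ s) (hs1 : s ≤ 1) :
    1 - z0 ≤ 1 - z * s := by
  have h2 : z * s ≤ z0 * 1 := mul_le_mul hz.2 hs1 hs0 (le_trans hz.1 hz.2)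
  linarith

private theorem one_div_prod_bd {a x y : ℝ} (ha : 0 < a) (hx : a ≤ x) (hy : a ≤ y) :
    1 / (x * y) ≤ 1 / a ^ 2 := by
  apply one_div_le_one_div_of_le (by positivity)
  rw [sq]
  exact mul_le_mul hx hy ha.le (le_trans ha.le hx)

private theorem lz_inv (z0 : ℝ) (h0 : 0 < z0) (h1 : z0 < 1) :
    LZ z0 (fun z t => 1 / (1 - z * sin t ^ 2)) := by
  refine ⟨1 / (1 - z0) ^ 2, ?_⟩
  intro z hz t
  obtain ⟨hs0, hs1⟩ := s_bds t
  have ha : 0 < 1 - z0 := by linarith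
  have hz0 : z0 ∈ Icc 0 z0 := ⟨h0.le, le_rfl⟩
  have hx := den_bd hz hs0 hs1
  have hy := den_bd hz0 hs0 hs1
  have hxp : 0 < 1 - z * sin t ^ 2 := lt_of_lt_of_le ha hx
  have hyp : 0 < 1 - z0 * sin t ^ 2 := lt_of_lt_of_le ha hy
  constructor
  · rw [abs_of_pos (by positivity)]
    apply one_div_le_one_div_of_le (by positivity)
    refine le_trans ?_ hx
    nlinarith
  · have he : 1 / (1 - z * sin t ^ 2) - 1 / (1 - z0 * sin t ^ 2)
        = -(sin t ^ 2 * (z0 - z) * (1 / ((1 - z * sin t ^ 2) * (1 - z0 * sin t ^ 2)))) := by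
      have hx0 := hxp.ne'
      have hy0 := hyp.ne'
      rw [div_sub_div _ _ hx0 hy0, mul_one_div, ← neg_div]
      congr 1
      ring
    show |1 / (1 - z * sin t ^ 2) - 1 / (1 - z0 * sin t ^ 2)| ≤ _
    have hd : 0 ≤ z0 - z := by linarith [hz.2]
    have hb := one_div_prod_bd ha hx hy
    have hq : 0 ≤ 1 / ((1 - z * sin t ^ 2) * (1 - z0 * sin t ^ 2)) := by positivity
    rw [he, abs_neg, abs_of_nonneg (by positivity)]
    calc sin t ^ 2 * (z0 - z) * (1 / ((1 - z * sin t ^ 2) * (1 - z0 * sin t ^ 2)))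
        ≤ 1 * (z0 - z) * (1 / (1 - z0) ^ 2) := by
          apply mul_le_mul _ hb hq (by positivity)
          exact mul_le_mul_of_nonneg_right hs1 hd
      _ = 1 / (1 - z0) ^ 2 * (z0 - z) := by ring

private theorem y_bds {z0 z : ℝ} (h1 : z0 < 1) (hz : z ∈ Icc 0 z0) (t : ℝ) :
    Yv z t ∈ Icc 0 z0 := by
  obtain ⟨hs0, hs1⟩ := s_bds t
  have ha : 0 < 1 - z0 := by linarith
  have hx := den_bd hz hs0 hs1
  have hxp : 0 < 1 - z * sin t ^ 2 := lt_of_lt_of_le ha hx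
  have hc : cos t ^ 2 = 1 - sin t ^ 2 := by
    have := sin_sq_add_cos_sq t
    linarith
  unfold Yv
  rw [hc]
  constructor
  · apply div_nonneg _ hxp.le
    exact mul_nonneg hz.1 (by linarith)
  · rw [div_le_iff₀ hxp]
    have h2 : z * (1 - sin t ^ 2) ≤ z * (1 - z * sin t ^ 2) := by
      apply mul_le_mul_of_nonneg_left _ hz.1
      have hz1 : z ≤ 1 := le_trans hz.2 h1.le
      have : z * sin t ^ 2 ≤ 1 * sin t ^ 2 := mul_le_mul_of_nonneg_right hz1 hs0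
      linarith
    have h3 : z * (1 - z * sin t ^ 2) ≤ z0 * (1 - z * sin t ^ 2) :=
      mul_le_mul_of_nonneg_right hz.2 hxp.le
    linarith

private theorem x_bds {z0 z : ℝ} (hz : z ∈ Icc 0 z0) (t : ℝ) :
    z * sin t ^ 2 ∈ Icc 0 z0 := by
  obtain ⟨hs0, hs1⟩ := s_bds t
  constructor
  · exact mul_nonneg hz.1 hs0
  · have := mul_le_mul_of_nonneg_left hs1 hz.1
    linarith [hz.2]

private theorem y_lip {z0 z : ℝ} (h0 : 0 < z0) (h1 : z0 < 1) (hz : z ∈ Icc 0 z0) (t : ℝ) :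
    |Yv z t - Yv z0 t| ≤ 1 / (1 - z0) ^ 2 * (z0 - z) := by
  obtain ⟨hs0, hs1⟩ := s_bds t
  have ha : 0 < 1 - z0 := by linarith
  have hz0 : z0 ∈ Icc 0 z0 := ⟨h0.le, le_rfl⟩
  have hx := den_bd hz hs0 hs1
  have hy := den_bd hz0 hs0 hs1
  have hxp : 0 < 1 - z * sin t ^ 2 := lt_of_lt_of_le ha hx
  have hyp : 0 < 1 - z0 * sin t ^ 2 := lt_of_lt_of_le ha hy
  have hc : cos t ^ 2 = 1 - sin t ^ 2 := by
    have := sin_sq_add_cos_sq t
    linarith
  have hd : 0 ≤ z0 - z := by linarith [hz.2]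
  have hc0 : 0 ≤ 1 - sin t ^ 2 := by linarith
  unfold Yv
  rw [hc]
  have he : z * (1 - sin t ^ 2) / (1 - z * sin t ^ 2) - z0 * (1 - sin t ^ 2) / (1 - z0 * sin t ^ 2)
      = -((1 - sin t ^ 2) * (z0 - z) * (1 / ((1 - z * sin t ^ 2) * (1 - z0 * sin t ^ 2)))) := by
    have hx0 := hxp.ne'
    have hy0 := hyp.ne'
    rw [div_sub_div _ _ hx0 hy0, mul_one_div, ← neg_div]
    congr 1
    ring
  have hb := one_div_prod_bd ha hx hy
  have hq : 0 ≤ 1 / ((1 - z * sin t ^ 2) * (1 - z0 * sin t ^ 2)) := by positivity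
  rw [he, abs_neg, abs_of_nonneg (mul_nonneg (mul_nonneg hc0 hd) hq)]
  calc (1 - sin t ^ 2) * (z0 - z) * (1 / ((1 - z * sin t ^ 2) * (1 - z0 * sin t ^ 2)))
      ≤ 1 * (z0 - z) * (1 / (1 - z0) ^ 2) := by
        apply mul_le_mul _ hb hq (by positivity)
        exact mul_le_mul_of_nonneg_right (by linarith) hd
    _ = 1 / (1 - z0) ^ 2 * (z0 - z) := by ring

private theorem lz_comp (z0 : ℝ) (h0 : 0 < z0) (p : ℝ → ℝ) (K : ℝ)
    (hp : ∀ x ∈ Icc 0 z0, ∀ y ∈ Icc 0 z0, |p x - p y| ≤ K * |x - y|)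
    (U : ℝ → ℝ → ℝ) (L : ℝ) (hL : 0 ≤ L)
    (hU : ∀ z ∈ Icc 0 z0, ∀ t, U z t ∈ Icc 0 z0 ∧ |U z t - U z0 t| ≤ L * (z0 - z)) :
    LZ z0 (fun z t => p (U z t)) := by
  have hz0 : z0 ∈ Icc 0 z0 := ⟨h0.le, le_rfl⟩
  have h00 : (0 : ℝ) ∈ Icc 0 z0 := ⟨le_rfl, h0.le⟩
  have hK : 0 ≤ K := by
    have h := hp z0 hz0 0 h00
    rw [sub_zero, abs_of_pos h0] at h
    have h2 : 0 ≤ K * z0 := le_trans (abs_nonneg _) h
    by_contra hneg
    push Not at hneg
    nlinarith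
  refine ⟨|p 0| + K * z0 + K * L, ?_⟩
  intro z hz t
  obtain ⟨hm, hl⟩ := hU z hz t
  obtain ⟨hm0, -⟩ := hU z0 hz0 t
  have hKz : 0 ≤ K * z0 := mul_nonneg hK h0.le
  have hKL : 0 ≤ K * L := mul_nonneg hK hL
  have hd : 0 ≤ z0 - z := by linarith [hz.2]
  constructor
  · have h := hp (U z t) hm 0 h00
    rw [sub_zero] at h
    have h2 : |U z t| ≤ z0 := by
      rw [abs_of_nonneg hm.1]
      exact hm.2
    have h3 : K * |U z t| ≤ K * z0 := mul_le_mul_of_nonneg_left h2 hK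
    have h4 : |p (U z t)| ≤ |p (U z t) - p 0| + |p 0| := by
      have := abs_add_le (p (U z t) - p 0) (p 0)
      rwa [sub_add_cancel] at this
    show |p (U z t)| ≤ _
    linarith
  · show |p (U z t) - p (U z0 t)| ≤ _
    calc |p (U z t) - p (U z0 t)| ≤ K * |U z t - U z0 t| := hp _ hm _ hm0
      _ ≤ K * (L * (z0 - z)) := mul_le_mul_of_nonneg_left hl hK
      _ = K * L * (z0 - z) := by ring
      _ ≤ (|p 0| + K * z0 + K * L) * (z0 - z) := by
        apply mul_le_mul_of_nonneg_right _ hd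
        have := abs_nonneg (p 0)
        linarith

private theorem lz_nonneg {z0 : ℝ} (h0 : 0 < z0) {F : ℝ → ℝ → ℝ} {C : ℝ}
    (h : ∀ z ∈ Icc 0 z0, ∀ t : ℝ, |F z t| ≤ C ∧ |F z t - F z0 t| ≤ C * (z0 - z)) : 0 ≤ C :=
  le_trans (abs_nonneg _) (h z0 ⟨h0.le, le_rfl⟩ 0).1

/-- row SQL -/
theorem sql : SqlStmt := by
  intro z0 h0 h1
  have ha : 0 < 1 - z0 := by linarith
  have hz0 : z0 ∈ Icc 0 z0 := ⟨h0.le, le_rfl⟩
  refine ⟨lz_inv z0 h0 h1, ?_, ?_, ?_⟩
  · intro p K hp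
    refine ⟨?_, ?_⟩
    · refine lz_comp z0 h0 p K hp (fun z t => z * sin t ^ 2) 1 zero_le_one ?_
      intro z hz t
      refine ⟨x_bds hz t, ?_⟩
      obtain ⟨hs0, hs1⟩ := s_bds t
      have hd : 0 ≤ z0 - z := by linarith [hz.2]
      have he : z * sin t ^ 2 - z0 * sin t ^ 2 = -(sin t ^ 2 * (z0 - z)) := by ring
      show |z * sin t ^ 2 - z0 * sin t ^ 2| ≤ _
      rw [he, abs_neg, abs_of_nonneg (mul_nonneg hs0 hd)]
      exact mul_le_mul_of_nonneg_right hs1 hd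
    · refine lz_comp z0 h0 p K hp Yv (1 / (1 - z0) ^ 2) (by positivity) ?_
      intro z hz t
      exact ⟨y_bds h1 hz t, y_lip h0 h1 hz t⟩
  · rintro F G ⟨C1, hF⟩ ⟨C2, hG⟩
    have hC1 := lz_nonneg h0 hF
    have hC2 := lz_nonneg h0 hG
    refine ⟨⟨C1 + C2, ?_⟩, ⟨2 * (C1 * C2), ?_⟩⟩
    · intro z hz t
      obtain ⟨f1, f2⟩ := hF z hz t
      obtain ⟨g1, g2⟩ := hG z hz t
      constructor
      · exact le_trans (abs_add_le _ _) (add_le_add f1 g1)
      · show |F z t + G z t - (F z0 t + G z0 t)| ≤ _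
        have he : F z t + G z t - (F z0 t + G z0 t) = (F z t - F z0 t) + (G z t - G z0 t) := by ring
        rw [he, add_mul]
        exact le_trans (abs_add_le _ _) (add_le_add f2 g2)
    · intro z hz t
      obtain ⟨f1, f2⟩ := hF z hz t
      obtain ⟨g1, g2⟩ := hG z hz t
      obtain ⟨g3, -⟩ := hG z0 hz0 t
      have hd : 0 ≤ z0 - z := by linarith [hz.2]
      have hCC : 0 ≤ C1 * C2 := mul_nonneg hC1 hC2
      constructor
      · show |F z t * G z t| ≤ _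
        rw [abs_mul]
        have := mul_le_mul f1 g1 (abs_nonneg _) hC1
        linarith
      · show |F z t * G z t - F z0 t * G z0 t| ≤ _
        have he : F z t * G z t - F z0 t * G z0 t
            = F z t * (G z t - G z0 t) + (F z t - F z0 t) * G z0 t := by ring
        rw [he]
        have k1 : |F z t * (G z t - G z0 t)| ≤ C1 * (C2 * (z0 - z)) := by
          rw [abs_mul]
          exact mul_le_mul f1 g2 (abs_nonneg _) hC1
        have k2 : |(F z t - F z0 t) * G z0 t| ≤ C1 * (z0 - z) * C2 := by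
          rw [abs_mul]
          exact mul_le_mul f2 g3 (abs_nonneg _) (mul_nonneg hC1 hd)
        have k3 := abs_add_le (F z t * (G z t - G z0 t)) ((F z t - F z0 t) * G z0 t)
        nlinarith
  · rintro F ⟨C, hF⟩ hc
    have hC := lz_nonneg h0 hF
    refine ⟨C * (π / 2), ?_⟩
    intro z hz
    have hi : ∀ w ∈ Icc 0 z0, IntegrableOn (F w) (Ioo 0 (π / 2)) := fun w hw =>
      ((hc w hw).continuousOn.integrableOn_Icc).mono_set Ioo_subset_Icc_self
    rw [← integral_sub (hi z hz) (hi z0 hz0)]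
    have hd : 0 ≤ z0 - z := by linarith [hz.2]
    have hp : (0 : ℝ) ≤ π / 2 := by positivity
    have h := norm_setIntegral_le_of_norm_le_const (μ := volume) (s := Ioo 0 (π / 2))
      (f := fun t => F z t - F z0 t) (C := C * (z0 - z)) (by simp)
      (fun t _ => by
        rw [Real.norm_eq_abs]
        exact (hF z hz t).2)
    rw [Real.norm_eq_abs] at h
    refine le_trans h ?_
    rw [Real.volume_real_Ioo_of_le hp]
    apply le_of_eq
    ring

end Pool.Agent.QUD.H51
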